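import Mathlib

/-!
# Regular graphs in which any `k` maximal cliques share a vertex

For every `k` there is a finite regular graph, not complete, in which any `k` maximal cliques have
a common vertex.  (For `k = 2` this answers Berge's question on disjoint maximal cliques of
incomplete regular graphs in the negative.)

Construction (`t = k + 2`): the complement `H` of the graph has `t` disjoint cliques of size `t`,
each vertex of which is blown up to `t ^ (t - 1)` independent copies, and for every transversal `A`
of the `t` cliques one further vertex joined to all copies of all the vertices of `A`.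
-/

set_option autoImplicit false

namespace Pool.Agent.Results.MP_7cf704_co.CommonVertex

variable (t : ℕ)

/-- Vertices: `inl (i, j, c)` is copy `c` of vertex `j` of clique `i`; `inr A` belongs to the
transversal `A`. -/
abbrev W : Type := (Fin t × Fin t × Fin (t ^ (t - 1))) ⊕ (Fin t → Fin t)

/-- adjacency in the complement -/
def hadj : W t → W t → Prop
  | .inl (i, j, _), .inl (i', j', _) => i = i' ∧ j ≠ j'
  | .inl (i, j, _), .inr A => A i = j
  | .inr A, .inl (i, j, _) => A i = j
  | .inr _, .inr _ => False

theorem hadj_symm (x y : W t) (h : hadj t x y) : hadj t y x := by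
  rcases x with ⟨i, j, c⟩ | A <;> rcases y with ⟨i', j', c'⟩ | B
  · exact ⟨h.1.symm, h.2.symm⟩
  · exact h
  · exact h
  · exact h

theorem hadj_irrefl (x : W t) : ¬ hadj t x x := by
  rcases x with ⟨i, j, c⟩ | A
  · exact fun h => h.2 rfl
  · exact fun h => h

/-- the complement graph -/
def H : SimpleGraph (W t) where
  Adj := hadj t
  symm := ⟨fun x y h => hadj_symm t x y h⟩
  loopless := ⟨fun x => hadj_irrefl t x⟩

open Classical in
theorem H_degree (ht : 1 ≤ t) (x : W t) : (H t).degree x = t ^ t := by
  rw [← SimpleGraph.card_neighborSet_eq_degree, ← Nat.card_eq_fintype_card]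
  have hpow : t * t ^ (t - 1) = t ^ t := by
    rw [← pow_succ']; congr 1; omega
  rcases x with ⟨i, j, c⟩ | A
  · have e : (H t).neighborSet (Sum.inl (i, j, c)) ≃
        ({j' : Fin t // j' ≠ j} × Fin (t ^ (t - 1))) ⊕ {A : Fin t → Fin t // A i = j} :=
      { toFun := fun v => match v with
          | ⟨.inl (i', j', c'), h⟩ => .inl (⟨j', fun e => h.2 e.symm⟩, c')
          | ⟨.inr A, h⟩ => .inr ⟨A, h⟩
        invFun := fun v => match v with
          | .inl (j', c') => ⟨.inl (i, j'.1, c'), ⟨rfl, fun e => j'.2 e.symm⟩⟩
          | .inr A => ⟨.inr A.1, A.2⟩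
        left_inv := by
          rintro ⟨⟨i', j', c'⟩ | A, h⟩
          · obtain ⟨h1, h2⟩ := h
            subst h1
            rfl
          · rfl
        right_inv := by
          rintro (⟨j', c'⟩ | A) <;> rfl }
    rw [Nat.card_congr e, Nat.card_sum, Nat.card_prod]
    have h1 : Nat.card {j' : Fin t // j' ≠ j} = t - 1 := by
      rw [Nat.card_eq_fintype_card, Fintype.card_subtype_compl]
      simp
    have h2 : Nat.card {A : Fin t → Fin t // A i = j} = t ^ (t - 1) := by
      have e2 : {A : Fin t → Fin t // A i = j} ≃ ({m : Fin t // m ≠ i} → Fin t) :=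
        { toFun := fun A m => A.1 m.1
          invFun := fun f => ⟨fun m => if h : m = i then j else f ⟨m, h⟩, by simp⟩
          left_inv := by
            rintro ⟨A, hA⟩
            ext m
            by_cases h : m = i
            · subst h; simp [hA]
            · simp [h]
          right_inv := by
            intro f
            ext ⟨m, hm⟩
            simp [hm] }
      rw [Nat.card_congr e2, Nat.card_fun]
      simp [Fintype.card_subtype_compl]
    rw [h1, h2, Nat.card_eq_fintype_card, Fintype.card_fin]
    obtain ⟨s, rfl⟩ : ∃ s, t = s + 1 := ⟨t - 1, by omega⟩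
    simp only [Nat.add_sub_cancel]
    ring
  · have e : (H t).neighborSet (Sum.inr A) ≃ Fin t × Fin (t ^ (t - 1)) :=
      { toFun := fun v => match v with
          | ⟨.inl (i', _, c'), _⟩ => (i', c')
          | ⟨.inr _, h⟩ => h.elim
        invFun := fun v => ⟨.inl (v.1, A v.1, v.2), rfl⟩
        left_inv := by
          rintro ⟨⟨i', j', c'⟩ | B, h⟩
          · have h' : A i' = j' := h
            subst h'
            rfl
          · exact h.elim
        right_inv := by rintro ⟨i', c'⟩; rfl }
    rw [Nat.card_congr e, Nat.card_prod]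
    simp [hpow]

variable {t}

/-- A clique of the complement of `H` meets at most one class of each block, so `k < t` of them
avoid a class of every block. -/
theorem avoid {k : ℕ} (hk : k < t) (s : Fin k → Set (W t)) (hs : ∀ m, (H t)ᶜ.IsClique (s m))
    (i : Fin t) : ∃ j : Fin t, ∀ m c, (Sum.inl (i, j, c) : W t) ∉ s m := by
  classical
  have key : ∀ m, ∃ j₀ : Fin t, ∀ j, j ≠ j₀ → ∀ c, (Sum.inl (i, j, c) : W t) ∉ s m := by
    intro m
    by_cases h : ∃ j c, (Sum.inl (i, j, c) : W t) ∈ s m
    · obtain ⟨j₀, c₀, h₀⟩ := h
      refine ⟨j₀, fun j hj c hc => ?_⟩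
      have hne : (Sum.inl (i, j, c) : W t) ≠ Sum.inl (i, j₀, c₀) := by
        intro e
        simp only [Sum.inl.injEq, Prod.mk.injEq] at e
        exact hj e.2.1
      have := hs m hc h₀ hne
      rw [SimpleGraph.compl_adj] at this
      exact this.2 ⟨rfl, hj⟩
    · push Not at h
      exact ⟨i, fun j _ c => h j c⟩
  choose f hf using key
  obtain ⟨j, hj⟩ : ∃ j : Fin t, ∀ m, j ≠ f m := by
    by_contra hcon
    push Not at hcon
    have hsurj : Function.Surjective f := fun j => by
      obtain ⟨m, hm⟩ := hcon j
      exact ⟨m, hm.symm⟩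
    have := Fintype.card_le_of_surjective f hsurj
    simp at this
    omega
  exact ⟨j, fun m c => hf m j (hj m) c⟩

theorem mem_of_maximal (s : Set (W t)) (hs : Maximal (H t)ᶜ.IsClique s) (A : Fin t → Fin t)
    (h : ∀ i c, (Sum.inl (i, A i, c) : W t) ∉ s) : (Sum.inr A : W t) ∈ s := by
  have hcl : (H t)ᶜ.IsClique (insert (Sum.inr A) s) := by
    apply hs.prop.insert
    intro b hb hne
    rw [SimpleGraph.compl_adj]
    refine ⟨hne, ?_⟩
    rcases b with ⟨i, j, c⟩ | B
    · intro hadj
      have hadj' : A i = j := hadj
      subst hadj'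
      exact h i c hb
    · exact fun hadj => hadj
  exact hs.le_of_ge hcl (Set.subset_insert _ _) (Set.mem_insert _ _)

/-- For every `k` there is a finite regular graph `G`, not complete, such that any `k` maximal
cliques of `G` have a common vertex. -/
theorem result (k : ℕ) :
    ∃ (V : Type) (_ : Fintype V) (_ : DecidableEq V) (G : SimpleGraph V)
      (_ : DecidableRel G.Adj) (d : ℕ), G.IsRegularOfDegree d ∧ G ≠ ⊤ ∧
      ∀ s : Fin k → Set V, (∀ m, Maximal G.IsClique (s m)) → ∃ v, ∀ m, v ∈ s m := by
  classical
  let t := k + 2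
  refine ⟨W t, inferInstance, inferInstance, (H t)ᶜ, inferInstance,
    Fintype.card (W t) - 1 - t ^ t, ?_, ?_, ?_⟩
  · intro v
    rw [SimpleGraph.degree_compl, H_degree t (by omega)]
  · intro h
    have h0 : 0 < t ^ (t - 1) := Nat.pow_pos (by omega)
    let x : W t := Sum.inl (⟨0, by omega⟩, ⟨0, by omega⟩, ⟨0, h0⟩)
    let y : W t := Sum.inl (⟨0, by omega⟩, ⟨1, by omega⟩, ⟨0, h0⟩)
    have hxy : (H t).Adj x y := ⟨rfl, by simp⟩
    have h1 : (H t)ᶜ.Adj x y := by
      rw [h]
      exact hxy.ne
    rw [SimpleGraph.compl_adj] at h1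
    exact h1.2 hxy
  · intro s hs
    have hav := avoid (t := t) (by omega : k < t) s (fun m => (hs m).prop)
    choose A hA using hav
    exact ⟨Sum.inr A, fun m => mem_of_maximal (s m) (hs m) A (fun i c => hA i m c)⟩

end Pool.Agent.Results.MP_7cf704_co.CommonVertex
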